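import Pool.Agent.PCL.Stmts

/-!
Squad PCL (MP_1fc801_co), row MOM (helper94): many small common primes.
-/

set_option autoImplicit false

namespace Pool.Agent.PCL.H94

theorem mom (h1 : VdmStmt) (h2 : CrcStmt) (h3 : EsyStmt) : MomStmt := by
  classical
  intro m σ f R y k A hf hA hm hy hex
  set T : Finset ℕ := (Finset.Icc 1 y).filter Nat.Prime with hT
  set P : Finset (Finset ℕ) := T.powersetCard k with hP
  set AS : Finset ℕ → Finset ℤ := fun S => A.filter fun a => ∀ p ∈ S, ∀ s, (p : ℤ) ∣ (f s).eval a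
    with hAS
  have hcov : A ⊆ P.biUnion AS := by
    intro a ha
    obtain ⟨S, hS, hSp, hSd⟩ := hex a ha
    rw [Finset.mem_biUnion]
    refine ⟨S, ?_, ?_⟩
    · rw [hP, Finset.mem_powersetCard]
      refine ⟨fun p hp => ?_, hS⟩
      rw [hT, Finset.mem_filter, Finset.mem_Icc]
      exact ⟨⟨(hSp p hp).1.pos, (hSp p hp).2⟩, (hSp p hp).1⟩
    · rw [hAS, Finset.mem_filter]
      exact ⟨ha, hSd⟩
  have hprime : ∀ S ∈ P, ∀ p ∈ S, p.Prime := by
    intro S hS p hp
    rw [hP, Finset.mem_powersetCard] at hS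
    have := hS.1 hp
    rw [hT, Finset.mem_filter] at this
    exact this.2
  have hone : ∀ S ∈ P, ((AS S).card : ℝ) ≤
      (m : ℝ) ^ k * ((2 * (R : ℝ) + 1) * ∏ p ∈ S, ((p : ℝ))⁻¹ + 1) := by
    intro S hS
    have hcard : S.card = k := (Finset.mem_powersetCard.mp hS).2
    have h4 := h2 m R S (AS S) (fun q hq => (hprime S hS q hq).pos)
      (by
        intro q hq q' hq' hne
        exact (Nat.coprime_primes (hprime S hS q hq) (hprime S hS q' hq')).mpr hne)
      (by
        intro a ha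
        rw [hAS, Finset.mem_filter] at ha
        exact hA a ha.1)
      (by
        intro q hq B hB hinc
        refine h1 m σ f q 1 1 (hprime S hS q hq) le_rfl (by simp) hf.deg
          (hf.prm q (hprime S hS q hq)) B ?_ ?_
        · intro a ha s
          have h5 := hB ha
          rw [hAS, Finset.mem_filter] at h5
          rw [pow_one]
          exact h5.2 q hq s
        · intro a ha b hb hab
          rw [pow_one] at hab
          exact hinc a ha b hb hab)
    rw [hcard, div_eq_mul_inv, ← Finset.prod_inv_distrib] at h4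
    exact h4
  have hcardP : ((P.card : ℕ) : ℝ) ≤ (y : ℝ) ^ k := by
    rw [hP, Finset.card_powersetCard]
    have h6 : T.card ≤ y := by
      refine (Finset.card_filter_le _ _).trans ?_
      simp
    have h7 : T.card.choose k ≤ y ^ k :=
      (Nat.choose_le_pow T.card k).trans (Nat.pow_le_pow_left h6 k)
    exact_mod_cast h7
  have hsum : ∑ p ∈ T, ((p : ℝ))⁻¹ ≤ 1 + Real.log y := by
    have h8 : ∑ p ∈ T, ((p : ℝ))⁻¹ ≤ ∑ p ∈ Finset.Icc 1 y, ((p : ℝ))⁻¹ := by
      refine Finset.sum_le_sum_of_subset_of_nonneg (Finset.filter_subset _ _) ?_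
      intro i _ _
      positivity
    have h9 := harmonic_le_one_add_log y
    rw [harmonic_eq_sum_Icc] at h9
    push_cast at h9
    exact h8.trans h9
  have hsum0 : (0 : ℝ) ≤ ∑ p ∈ T, ((p : ℝ))⁻¹ := by positivity
  have hesy := h3 T (fun p => ((p : ℝ))⁻¹) k (fun i _ => by positivity)
  have hfac : (0 : ℝ) < k.factorial := by exact_mod_cast Nat.factorial_pos k
  have hE : ∑ S ∈ P, ∏ p ∈ S, ((p : ℝ))⁻¹ ≤ (1 + Real.log y) ^ k / k.factorial := by
    rw [le_div_iff₀ hfac, mul_comm]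
    refine hesy.trans ?_
    exact pow_le_pow_left₀ hsum0 hsum k
  have h10 : (A.card : ℝ) ≤ ∑ S ∈ P, ((AS S).card : ℝ) := by
    have h7 := (Finset.card_le_card hcov).trans Finset.card_biUnion_le
    exact_mod_cast h7
  have hmk : (0 : ℝ) ≤ (m : ℝ) ^ k := by positivity
  calc (A.card : ℝ) ≤ ∑ S ∈ P, ((AS S).card : ℝ) := h10
    _ ≤ ∑ S ∈ P, (m : ℝ) ^ k * ((2 * (R : ℝ) + 1) * ∏ p ∈ S, ((p : ℝ))⁻¹ + 1) :=
        Finset.sum_le_sum hone
    _ = (m : ℝ) ^ k * ((2 * (R : ℝ) + 1) * ∑ S ∈ P, ∏ p ∈ S, ((p : ℝ))⁻¹) +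
        (m : ℝ) ^ k * P.card := by
        rw [← Finset.mul_sum, Finset.sum_add_distrib, ← Finset.mul_sum, Finset.sum_const,
          nsmul_eq_mul, mul_one, mul_add]
    _ ≤ (m : ℝ) ^ k * ((2 * (R : ℝ) + 1) * ((1 + Real.log y) ^ k / k.factorial)) +
        (m : ℝ) ^ k * (y : ℝ) ^ k := by
        refine add_le_add ?_ (mul_le_mul_of_nonneg_left hcardP hmk)
        refine mul_le_mul_of_nonneg_left ?_ hmk
        exact mul_le_mul_of_nonneg_left hE (by positivity)
    _ = (2 * (R : ℝ) + 1) * (((m : ℝ) * (1 + Real.log y)) ^ k / k.factorial) +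
        ((m : ℝ) * y) ^ k := by
        rw [mul_pow, mul_pow]
        ring

end Pool.Agent.PCL.H94
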